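import Pool.Agent.H.MP_ca5fa5_an.D

open MeasureTheory Filter Topology Set
open scoped ContDiff

namespace Pool.Agent.Results.MP_ca5fa5_an.Counter

noncomputable abbrev L2 : Type := Lp ℝ 2 (volume : Measure ℝ)

def Test (φ : ℝ → ℝ) : Prop := ContDiff ℝ ∞ φ ∧ HasCompactSupport φ

noncomputable def form (a V φ ψ : ℝ → ℝ) : ℝ := ∫ x, (a x * deriv φ x * deriv ψ x + V x * φ x * ψ x)

def Adm (a V : ℝ → ℝ) : Prop :=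
  Measurable a ∧ Measurable V ∧ (∀ R, ∃ c C : ℝ, 0 < c ∧ ∀ x, |x| ≤ R → c ≤ a x ∧ a x ≤ C ∧ |V x| ≤ C) ∧
    ∀ φ, Test φ → 0 ≤ form a V φ φ

def InfZero (a V : ℝ → ℝ) : Prop := ∀ ε > 0, ∃ φ, Test φ ∧ form a V φ φ < ε * ∫ x, φ x ^ 2

def Subcritical (a V : ℝ → ℝ) : Prop :=
  ∃ ρ : ℝ → ℝ, ContDiff ℝ ∞ ρ ∧ (∀ x, 0 < ρ x) ∧ ∀ φ, Test φ → ∫ x, ρ x * φ x ^ 2 ≤ form a V φ φ

def Critical (a V : ℝ → ℝ) : Prop := ∀ W, Test W → (∀ x, 0 ≤ W x) → W ≠ 0 → ∃ φ, Test φ ∧ form a (V - W) φ φ < 0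

def Graph (a V u w : ℝ → ℝ) : Prop :=
  ∃ φ : ℕ → ℝ → ℝ, (∀ n, Test (φ n)) ∧ Tendsto (fun n => ∫ x, (φ n x - u x) ^ 2) atTop (𝓝 0) ∧
    Tendsto (fun p : ℕ × ℕ => form a V (φ p.1 - φ p.2) (φ p.1 - φ p.2)) atTop (𝓝 0) ∧
    ∀ ψ, Test ψ → Tendsto (fun n => form a V (φ n) ψ) atTop (𝓝 (∫ x, w x * ψ x))

def Semigroup {H : Type} [NormedAddCommGroup H] [InnerProductSpace ℝ H] (T : ℝ → H → H) : Prop :=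
  (∀ t, 0 ≤ t → IsBoundedLinearMap ℝ (T t)) ∧ (∀ u, T 0 u = u) ∧ (∀ s t u, 0 ≤ s → 0 ≤ t → T (s + t) u = T s (T t u)) ∧
    (∀ u, ContinuousOn (fun t => T t u) (Ici 0)) ∧ ∀ t u v, 0 ≤ t → inner ℝ (T t u) v = inner ℝ u (T t v)

def Generates {H : Type} [NormedAddCommGroup H] [InnerProductSpace ℝ H] (G : H → H → Prop) (T : ℝ → H → H) : Prop :=
  ∀ u w, HasDerivWithinAt (fun t => T t u) (-w) (Ici 0) 0 ↔ G u w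

def Kernel (k : ℝ → ℝ → ℝ) (S : L2 → L2) : Prop :=
  Continuous (Function.uncurry k) ∧ (∀ x y, 0 < k x y) ∧ ∀ u : L2, S u =ᵐ[volume] fun x => ∫ y, k x y * u y

def Heat (a V : ℝ → ℝ) (T : ℝ → L2 → L2) (k : ℝ → ℝ → ℝ → ℝ) : Prop :=
  Semigroup T ∧ Generates (fun u w : L2 => Graph a V u w) T ∧ ∀ t, 0 < t → Kernel (k t) (T t)

open Pool.Agent.H.MP_ca5fa5_an (a0 ro adm0 admP inf0 infP crit subP main) in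
theorem result : ∃ a₀ V₀ a₁ V₁ : ℝ → ℝ, Adm a₀ V₀ ∧ Adm a₁ V₁ ∧ InfZero a₀ V₀ ∧ InfZero a₁ V₁ ∧ Critical a₀ V₀ ∧
    Subcritical a₁ V₁ ∧ ∃ K : Set (ℝ × ℝ), IsCompact K ∧ ∀ T₀ k₀ T₁ k₁, Heat a₀ V₀ T₀ k₀ → Heat a₁ V₁ T₁ k₁ →
      (∃ᶠ t in atTop, ∃ p ∈ K, 1 < k₁ t p.1 p.2 / k₀ t p.1 p.2) ∧
      ¬ TendstoUniformlyOn (fun t p => k₁ t p.1 p.2 / k₀ t p.1 p.2) 0 atTop K := by
  refine ⟨a0, 0, fun _ => 1, ro, adm0, admP, inf0, infP, crit, subP, Icc 1 2 ×ˢ Icc 1 2, isCompact_Icc.prod isCompact_Icc,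
    fun T₀ k₀ T₁ k₁ g₀ g₁ => ?_⟩
  obtain ⟨T₀, h₀⟩ := Pool.Agent.H.MP_ca5fa5_an.conv g₀.1.1 g₀.1.2.1 g₀.1.2.2.1 g₀.1.2.2.2.1 g₀.1.2.2.2.2 g₀.2.1 g₀.2.2
  obtain ⟨T₁, h₁⟩ := Pool.Agent.H.MP_ca5fa5_an.conv g₁.1.1 g₁.1.2.1 g₁.1.2.2.1 g₁.1.2.2.2.1 g₁.1.2.2.2.2 g₁.2.1 g₁.2.2
  have h : ∃ᶠ t in atTop, ∃ p ∈ Icc (1 : ℝ) 2 ×ˢ Icc (1 : ℝ) 2, 1 < k₁ t p.1 p.2 / k₀ t p.1 p.2 :=
    ((main h₁ h₀).and_eventually (eventually_gt_atTop 0)).mono fun t ⟨⟨x, hx, y, hy, e⟩, t0⟩ =>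
      ⟨(x, y), ⟨hx, hy⟩, (one_lt_div ((h₀.2.2.2.2.2 t t0).2.1 x y)).2 e⟩
  refine ⟨h, fun u => ?_⟩
  obtain ⟨t, ⟨p, p1, p2⟩, q⟩ := (h.and_eventually (Metric.tendstoUniformlyOn_iff.1 u 1 one_pos)).exists
  have := q p p1
  rw [Pi.zero_apply, dist_zero_left, Real.norm_eq_abs] at this
  linarith [le_abs_self (k₁ t p.1 p.2 / k₀ t p.1 p.2)]

end Pool.Agent.Results.MP_ca5fa5_an.Counter
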